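import Pool.Agent.helper97.IRO.Spec2

set_option autoImplicit false

/-!
# UN4: uniqueness of the mixing measure
-/

open MeasureTheory Pool.Agent.LOF

namespace Pool.Agent.IRO

theorem UN4_pull_meas : Measurable (pull : LO F → LO F) := by
  refine Measurable.subtype_mk ?_
  refine measurable_pi_lambda _ fun z => ?_
  exact (measurable_pi_apply (mirF z.1, mirF z.2)).comp measurable_subtype_coe

theorem UN4_meas (h2 : FN3_stmt) (t : Bool) (q : Q) :
    Measurable (fun ε : D → Bool => if t then Ord q ε else pull (Ord q ε)) := by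
  have h3 : Measurable (fun ε : D → Bool => Ord q ε) := by
    have h4 : Measurable (fun ε : D → Bool => ((q, ε) : Q × (D → Bool))) :=
      measurable_const.prodMk measurable_id
    exact Measurable.comp h2 h4
  cases t
  · simp only [Bool.false_eq_true, if_false]
    exact UN4_pull_meas.comp h3
  · simp only [if_true]
    exact h3

theorem UN4_prob (h2 : FN3_stmt) (t : Bool) (q : Q) (p : unitInterval) :
    law t q p Set.univ = 1 := by
  unfold law
  rw [Measure.map_apply (UN4_meas h2 t q) MeasurableSet.univ, Set.preimage_univ]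
  exact measure_univ

theorem UN4 (h1 : UN3_stmt) (h2 : FN3_stmt) : UN4_stmt := by
  intro m m' _ _ h
  obtain ⟨Θ, hΘ, hw⟩ := h1
  have key : ∀ B : Set (Bool × Q × unitInterval), MeasurableSet B →
      ∀ w : Bool × Q × unitInterval, law w.1 w.2.1 w.2.2 (Θ ⁻¹' B) =
        B.indicator (fun _ => (1 : ENNReal)) w := by
    intro B _ w
    have h3 := hw w.1 w.2.1 w.2.2
    by_cases hB : w ∈ B
    · rw [Set.indicator_of_mem hB]
      have h4 : ∀ᵐ r ∂(law w.1 w.2.1 w.2.2), (r ∈ Θ ⁻¹' B) = (r ∈ (Set.univ : Set (LO F))) := by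
        filter_upwards [h3] with r hr
        rw [Set.mem_preimage, hr]
        simp only [Set.mem_univ, eq_iff_iff, iff_true]
        exact hB
      have h5 : (Θ ⁻¹' B : Set (LO F)) =ᵐ[law w.1 w.2.1 w.2.2] (Set.univ : Set (LO F)) := h4
      rw [measure_congr h5, UN4_prob h2]
    · rw [Set.indicator_of_notMem hB]
      have h4 : ∀ᵐ r ∂(law w.1 w.2.1 w.2.2), r ∉ Θ ⁻¹' B := by
        filter_upwards [h3] with r hr
        rw [Set.mem_preimage, hr]
        exact hB
      have h5 := measure_eq_zero_iff_ae_notMem.2 h4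
      exact h5
  refine Measure.ext fun B hB => ?_
  have h3 := h (Θ ⁻¹' B) (hΘ hB)
  simp_rw [key B hB] at h3
  rw [lintegral_indicator_const hB, lintegral_indicator_const hB, one_mul, one_mul] at h3
  exact h3

end Pool.Agent.IRO
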